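import Pool.Agent.helper32.TRI.Spec

/-!
# Project TRI (MP_561ff4_al), row M5A: explicit matrices
-/

set_option autoImplicit false

namespace Pool.Agent.TRI

section

variable {F : Type} [Field F]

theorem M5A_sa : Fin.succAbove (2 : Fin 4) (2 : Fin 3) = 3 := by decide

theorem M5A_conj (g _y : Matrix.SpecialLinearGroup (Fin 4) F) (gi : Matrix (Fin 4) (Fin 4) F)
    (h : (g : Matrix (Fin 4) (Fin 4) F) * gi = 1) :
    ((g⁻¹ : Matrix.SpecialLinearGroup (Fin 4) F) : Matrix (Fin 4) (Fin 4) F) = gi := by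
  have h1 : ((g⁻¹ : Matrix.SpecialLinearGroup (Fin 4) F) : Matrix (Fin 4) (Fin 4) F) *
      (g : Matrix (Fin 4) (Fin 4) F) = 1 := by
    rw [← Matrix.SpecialLinearGroup.coe_mul, inv_mul_cancel, Matrix.SpecialLinearGroup.coe_one]
  calc ((g⁻¹ : Matrix.SpecialLinearGroup (Fin 4) F) : Matrix (Fin 4) (Fin 4) F)
      = ((g⁻¹ : Matrix.SpecialLinearGroup (Fin 4) F) : Matrix (Fin 4) (Fin 4) F) *
        ((g : Matrix (Fin 4) (Fin 4) F) * gi) := by rw [h, mul_one]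
    _ = gi := by rw [← mul_assoc, h1, one_mul]

/-- the matrix `Y` -/
def M5A_Y (s1 s2 : F) : Matrix (Fin 4) (Fin 4) F :=
  !![1 + s1 * s2, s1, 0, 0; s2, 1, 0, 0; 0, 0, 1, 0; 0, 0, 0, 1]

theorem M5A_Yeq (s1 s2 : F) : (1 + Matrix.single 0 1 s1) * (1 + Matrix.single 1 0 s2) = M5A_Y s1 s2 := by
  unfold M5A_Y
  ext i j
  fin_cases i <;> fin_cases j <;>
    simp [Matrix.mul_apply, Fin.sum_univ_four, Matrix.single, Matrix.one_apply]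

/-- the matrix `G1` -/
def M5A_G1 (s k : F) : Matrix (Fin 4) (Fin 4) F :=
  !![1 / s, 0, -1 / k, s * (2 + k) / k; 0, 1, 4 + k, -s * (3 + k); 0, 0, 1, 0; 0, 0, 0, s]

/-- its inverse -/
def M5A_G1i (s k : F) : Matrix (Fin 4) (Fin 4) F :=
  !![s, 0, s / k, -s * (2 + k) / k; 0, 1, -(4 + k), 3 + k; 0, 0, 1, 0; 0, 0, 0, 1 / s]

/-- the matrix `G2` (`t = s2`) -/
def M5A_G2 (s t k : F) : Matrix (Fin 4) (Fin 4) F :=
  !![0, 0, 1 / k, 0; 0, 0, -1, s; 0, 1, 0, s / k; -t, 0, 1 / k, 0]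

/-- its inverse -/
def M5A_G2i (s t k : F) : Matrix (Fin 4) (Fin 4) F :=
  !![s / k, 0, 0, -s / k; -1, -1 / k, 1, 0; k, 0, 0, 0; t, 1 / s, 0, 0]

/-- the matrix `P` -/
def M5A_P (k : F) : Matrix (Fin 4) (Fin 4) F :=
  !![1, 0, 1, -1; 0, 1, -k, 1 + k; 0, 0, 1, 0; 0, 0, 0, 1]

/-- its inverse -/
def M5A_Pi (k : F) : Matrix (Fin 4) (Fin 4) F :=
  !![1, 0, -1, 1; 0, 1, k, -1 - k; 0, 0, 1, 0; 0, 0, 0, 1]

/-- `G1 Y G1⁻¹` -/
def M5A_A (k : F) : Matrix (Fin 4) (Fin 4) F :=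
  !![1 + k, 1, -3 - k, 1; k, 1, 1, -2 - k; 0, 0, 1, 0; 0, 0, 0, 1]

/-- `G2 Y G2⁻¹` -/
def M5A_B (k : F) : Matrix (Fin 4) (Fin 4) F :=
  !![1, 0, 0, 0; 0, 1, 0, 0; 1, 0, 1, -1; 0, 1, -k, 1 + k]

theorem M5A_det1 (s k : F) (hs : s ≠ 0) (_hk : k ≠ 0) : (M5A_G1 s k).det = 1 := by
  unfold M5A_G1
  simp [Matrix.det_succ_row_zero, Fin.sum_univ_succ, hs]

theorem M5A_det2 (s t : F) (hs : s ≠ 0) (ht : t ≠ 0) : (M5A_G2 s t (s * t)).det = 1 := by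
  unfold M5A_G2
  simp [Matrix.det_succ_row_zero, Fin.sum_univ_succ, M5A_sa]
  field_simp

theorem M5A_det3 (k : F) : (M5A_P k).det = 1 := by
  unfold M5A_P
  simp [Matrix.det_succ_row_zero, Fin.sum_univ_succ]

theorem M5A_inv1 (s k : F) (hs : s ≠ 0) (hk : k ≠ 0) : M5A_G1 s k * M5A_G1i s k = 1 := by
  unfold M5A_G1 M5A_G1i
  ext i j
  fin_cases i <;> fin_cases j <;>
    simp [Matrix.mul_apply, Fin.sum_univ_four, Matrix.one_apply, hs] <;> field_simp <;> ring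

theorem M5A_inv2 (s t : F) (hs : s ≠ 0) (ht : t ≠ 0) : M5A_G2 s t (s * t) * M5A_G2i s t (s * t) = 1 := by
  unfold M5A_G2 M5A_G2i
  ext i j
  fin_cases i <;> fin_cases j <;>
    simp [Matrix.mul_apply, Fin.sum_univ_four, Matrix.one_apply, hs, ht] <;> field_simp <;> ring

theorem M5A_inv3 (k : F) : M5A_P k * M5A_Pi k = 1 := by
  unfold M5A_P M5A_Pi
  ext i j
  fin_cases i <;> fin_cases j <;>
    simp [Matrix.mul_apply, Fin.sum_univ_four, Matrix.one_apply] <;> ring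

theorem M5A_eqA (s t : F) (hs : s ≠ 0) (ht : t ≠ 0) :
    M5A_G1 s (s * t) * M5A_Y s t * M5A_G1i s (s * t) = M5A_A (s * t) := by
  unfold M5A_G1 M5A_Y M5A_G1i M5A_A
  ext i j
  fin_cases i <;> fin_cases j <;>
    simp [Matrix.mul_apply, Fin.sum_univ_four, hs, ht] <;> field_simp <;> ring

theorem M5A_eqB (s t : F) (hs : s ≠ 0) (ht : t ≠ 0) :
    M5A_G2 s t (s * t) * M5A_Y s t * M5A_G2i s t (s * t) = M5A_B (s * t) := by
  unfold M5A_G2 M5A_Y M5A_G2i M5A_B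
  ext i j
  fin_cases i <;> fin_cases j <;>
    simp [Matrix.mul_apply, Fin.sum_univ_four, hs, ht] <;> field_simp <;> ring

theorem M5A_z5 : z5.map (Int.cast : ℤ → F) = !![-1, 1, -1, 0; 1, 0, 0, -1; 1, 0, 0, 0; 0, 1, 0, 0] := by
  unfold z5
  ext i j
  fin_cases i <;> fin_cases j <;> simp

theorem M5A_eqZ (k : F) : M5A_A k * M5A_B k = M5A_Pi k * z5.map (Int.cast : ℤ → F) * M5A_P k := by
  rw [M5A_z5]
  unfold M5A_A M5A_B M5A_P M5A_Pi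
  ext i j
  fin_cases i <;> fin_cases j <;>
    simp [Matrix.mul_apply, Fin.sum_univ_four] <;> ring

end

theorem M5A : M5A_stmt := by
  intro F _ s1 s2 h1 h2 Y hY
  have hk : s1 * s2 ≠ 0 := mul_ne_zero h1 h2
  rw [M5A_Yeq] at hY
  have hz : (z5.map (Int.cast : ℤ → F)).det = 1 := by
    rw [M5A_z5]
    simp [Matrix.det_succ_row_zero, Fin.sum_univ_succ, M5A_sa]
  let G1 : Matrix.SpecialLinearGroup (Fin 4) F := ⟨M5A_G1 s1 (s1 * s2), M5A_det1 s1 _ h1 hk⟩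
  let G2 : Matrix.SpecialLinearGroup (Fin 4) F := ⟨M5A_G2 s1 s2 (s1 * s2), M5A_det2 s1 s2 h1 h2⟩
  let P : Matrix.SpecialLinearGroup (Fin 4) F := ⟨M5A_P (s1 * s2), M5A_det3 _⟩
  let Z : Matrix.SpecialLinearGroup (Fin 4) F := ⟨z5.map (Int.cast : ℤ → F), hz⟩
  refine ⟨G1, G2, P, Z, rfl, ?_⟩
  have e1 := M5A_conj G1 Y (M5A_G1i s1 (s1 * s2)) (M5A_inv1 s1 _ h1 hk)
  have e2 := M5A_conj G2 Y (M5A_G2i s1 s2 (s1 * s2)) (M5A_inv2 s1 s2 h1 h2)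
  have e3 := M5A_conj P Y (M5A_Pi (s1 * s2)) (M5A_inv3 _)
  apply Subtype.ext
  have c1 : ((G1 * Y * G1⁻¹ * (G2 * Y * G2⁻¹) : Matrix.SpecialLinearGroup (Fin 4) F) : Matrix (Fin 4) (Fin 4) F) =
      M5A_A (s1 * s2) * M5A_B (s1 * s2) := by
    rw [Matrix.SpecialLinearGroup.coe_mul, Matrix.SpecialLinearGroup.coe_mul, Matrix.SpecialLinearGroup.coe_mul,
      Matrix.SpecialLinearGroup.coe_mul, Matrix.SpecialLinearGroup.coe_mul, e1, e2, hY, ← M5A_eqA s1 s2 h1 h2,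
      ← M5A_eqB s1 s2 h1 h2]
  have c2 : ((P⁻¹ * Z * P : Matrix.SpecialLinearGroup (Fin 4) F) : Matrix (Fin 4) (Fin 4) F) =
      M5A_Pi (s1 * s2) * z5.map (Int.cast : ℤ → F) * M5A_P (s1 * s2) := by
    rw [Matrix.SpecialLinearGroup.coe_mul, Matrix.SpecialLinearGroup.coe_mul, e3]
  exact c1.trans ((M5A_eqZ (s1 * s2)).trans c2.symm)

end Pool.Agent.TRI
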